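import Pool.Agent.Helper98.SPR.Stmts

/-!
# Row LIM: passage to the local limit
-/

namespace SPR

noncomputable section

open Filter Topology MeasureTheory

namespace LimRow

theorem near_self {V : Type} (c : V → V → ℕ) (r : ℕ) (x : V) : Near c r x x := by
  induction r with
  | zero => rfl
  | succ r ih => exact Or.inl ih

theorem near_mono {V : Type} {c : V → V → ℕ} {s r : ℕ} {x v : V} (h : Near c s x v)
    (hs : s ≤ r) : Near c r x v := by
  induction hs with
  | refl => exact h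
  | step _ ih => exact Or.inl ih

theorem iso_refl {V : Type} (r : ℕ) (c : V → V → ℕ) (x : V) : BallIso r c x c x :=
  ⟨Equiv.refl _, fun _ => rfl, fun _ _ => rfl⟩

theorem iso_symm {V W : Type} {r : ℕ} {c : V → V → ℕ} {x : V} {c' : W → W → ℕ} {x' : W}
    (h : BallIso r c x c' x') : BallIso r c' x' c x := by
  obtain ⟨e, h1, h2⟩ := h
  refine ⟨e.symm, fun h' => ?_, fun u v => ?_⟩
  · have hx : Near c r x x := near_self c r x
    have h3 : e ⟨x, hx⟩ = ⟨x', h'⟩ := Subtype.ext (h1 hx)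
    rw [← h3, Equiv.symm_apply_apply]
  · rw [h2, Equiv.apply_symm_apply, Equiv.apply_symm_apply]

theorem iso_trans {U V W : Type} {r : ℕ} {c : U → U → ℕ} {x : U} {c' : V → V → ℕ} {x' : V}
    {c'' : W → W → ℕ} {x'' : W}
    (h : BallIso r c x c' x') (h' : BallIso r c' x' c'' x'') : BallIso r c x c'' x'' := by
  obtain ⟨e, h1, h2⟩ := h
  obtain ⟨f, g1, g2⟩ := h'
  refine ⟨e.trans f, fun h => ?_, fun u v => ?_⟩
  · have h3 : e ⟨x, h⟩ = ⟨x', near_self c' r x'⟩ := Subtype.ext (h1 h)
    rw [Equiv.trans_apply, h3]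
    exact g1 _
  · rw [Equiv.trans_apply, Equiv.trans_apply, h2, g2]

theorem ball_finite {V : Type} {c : V → V → ℕ} (hc : ∀ x, (Function.support (c x)).Finite)
    (r : ℕ) (x : V) : {v | Near c r x v}.Finite := by
  induction r with
  | zero =>
    refine (Set.finite_singleton x).subset ?_
    intro v hv
    exact (show x = v from hv).symm
  | succ r ih =>
    refine (ih.union (ih.biUnion fun z _ => hc z)).subset ?_
    intro v hv
    rcases hv with h | ⟨z, hz, hv⟩
    · exact Or.inl h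
    · refine Or.inr ?_
      exact Set.mem_biUnion hz (Function.mem_support.mpr hv)

theorem exists_pattern {V : Type} {c : V → V → ℕ} (hc : ∀ x, (Function.support (c x)).Finite)
    (r : ℕ) (x : V) :
    ∃ (N : ℕ) (F : Fin N → Fin N → ℕ) (o : Fin N), BallIso r c x F o := by
  have hf : Finite {v // Near c r x v} := (ball_finite hc r x)
  obtain ⟨N, ⟨e⟩⟩ := Finite.exists_equiv_fin {v // Near c r x v}
  obtain ⟨F, hF⟩ : ∃ F : Fin N → Fin N → ℕ, F = fun i j => c (e.symm i) (e.symm j) := ⟨_, rfl⟩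
  obtain ⟨o, ho⟩ : ∃ o : Fin N, o = e ⟨x, near_self c r x⟩ := ⟨_, rfl⟩
  have hle : ∀ s v, Near c s x v → s ≤ r → Near c r x v := fun s v h hs => near_mono h hs
  have key : ∀ s, s ≤ r → ∀ v (h : Near c r x v), Near c s x v → Near F s o (e ⟨v, h⟩) := by
    intro s
    induction s with
    | zero =>
      intro _ v h hv
      have h1 : x = v := hv
      subst h1
      exact ho
    | succ s ih =>
      intro hs v h hv
      rcases hv with hv | ⟨z, hz, hzv⟩
      · exact Or.inl (ih (by omega) v h hv)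
      · have hz' : Near c r x z := hle s z hz (by omega)
        refine Or.inr ⟨e ⟨z, hz'⟩, ih (by omega) z hz' hz, ?_⟩
        rw [hF]
        simpa using hzv
  have hall : ∀ i, Near F r o i := by
    intro i
    have h1 := key r le_rfl (e.symm i : V) (e.symm i).2 (e.symm i).2
    simpa using h1
  have hF' : ∀ i j, F i j = c (e.symm i) (e.symm j) := fun i j => by rw [hF]
  refine ⟨N, F, o, e.trans (Equiv.subtypeUnivEquiv hall).symm, fun h => ?_, fun u v => ?_⟩
  · exact ho.symm
  · rw [hF']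
    simp [Equiv.subtypeUnivEquiv]

/-- finite rooted multigraphs -/
abbrev Pat : Type := Σ N : ℕ, (Fin N → Fin N → ℕ) × Fin N

/-- isomorphism of the balls of two patterns -/
def patSetoid (r : ℕ) : Setoid Pat where
  r p q := BallIso r p.2.1 p.2.2 q.2.1 q.2.2
  iseqv := ⟨fun _ => iso_refl _ _ _, fun h => iso_symm h, fun h h' => iso_trans h h'⟩

/-- a representative of the class of a pattern -/
def rep (r : ℕ) (p : Pat) : Pat := (Quotient.mk (patSetoid r) p).out

theorem rep_iso (r : ℕ) (p : Pat) :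
    BallIso r (rep r p).2.1 (rep r p).2.2 p.2.1 p.2.2 :=
  Quotient.mk_out (s := patSetoid r) p

theorem rep_eq (r : ℕ) (p q : Pat)
    (h : BallIso r (rep r p).2.1 (rep r p).2.2 (rep r q).2.1 (rep r q).2.2) :
    rep r p = rep r q := by
  have h1 : BallIso r p.2.1 p.2.2 q.2.1 q.2.2 :=
    iso_trans (iso_trans (iso_symm (rep_iso r p)) h) (rep_iso r q)
  have h2 : Quotient.mk (patSetoid r) p = Quotient.mk (patSetoid r) q := Quotient.sound h1
  unfold rep
  rw [h2]

end LimRow

open LimRow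

open Classical in
theorem st_LIM : ST_ISO → ST_LIM := by
  intro hISO A ε k R V c S Ω _ P _ G hε hc hG hS hlim hbad
  obtain ⟨r, hr⟩ : ∃ r : ℕ, r = R + 2 := ⟨_, rfl⟩
  obtain ⟨Ap, hAp⟩ : ∃ Ap : Pat → Set Ω, Ap = fun p => {ω | BallIso r (G ω) 0 p.2.1 p.2.2} :=
    ⟨_, rfl⟩
  obtain ⟨B, hB⟩ : ∃ B : Set Pat, B = {p | ∃ ω, ω ∈ Ap p ∧ ¬ Good A k R (G ω) 0} := ⟨_, rfl⟩
  -- bad patterns are bad at finite roots
  have hroot : ∀ p ∈ B, ∀ n w, BallIso r (c n) w p.2.1 p.2.2 → ¬ Good A k R (c n) w := by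
    intro p hp n w hw hgood
    rw [hB] at hp
    obtain ⟨ω, hω, hng⟩ := hp
    rw [hAp] at hω
    apply hng
    have h1 : BallIso r (c n) w (G ω) 0 := iso_trans hw (iso_symm hω)
    rw [hr] at h1
    exact hISO A k R (V n) ℕ (c n) (G ω) w 0 (hc n) (hG ω) h1 hgood
  -- covering
  have hcov : {ω | ¬ Good A k R (G ω) 0} ⊆ ⋃ T : Finset Pat, ⋃ p ∈ (T : Set Pat) ∩ B, Ap p := by
    intro ω hω
    obtain ⟨N, F, o, hiso⟩ := exists_pattern (hG ω).2 r 0
    have hmem : ω ∈ Ap ⟨N, F, o⟩ := by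
      rw [hAp]
      exact hiso
    refine Set.mem_iUnion.mpr ⟨{⟨N, F, o⟩}, ?_⟩
    refine Set.mem_biUnion (x := (⟨N, F, o⟩ : Pat)) ⟨by simp, ?_⟩ hmem
    rw [hB]
    exact ⟨ω, hmem, hω⟩
  -- finite unions
  have hfin : ∀ T : Finset Pat, P (⋃ p ∈ (T : Set Pat) ∩ B, Ap p) ≤ ENNReal.ofReal ε := by
    intro T
    obtain ⟨T', hT'⟩ : ∃ T' : Finset Pat, T' = (T.filter (fun p => p ∈ B)).image (rep r) :=
      ⟨_, rfl⟩
    have hsub : (⋃ p ∈ (T : Set Pat) ∩ B, Ap p) ⊆ ⋃ p ∈ T', Ap p := by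
      refine Set.iUnion₂_subset ?_
      intro p hp ω hω
      have hmem : rep r p ∈ T' := by
        rw [hT']
        exact Finset.mem_image_of_mem _ (Finset.mem_filter.mpr ⟨hp.1, hp.2⟩)
      refine Set.mem_biUnion hmem ?_
      rw [hAp] at hω ⊢
      exact iso_trans hω (iso_symm (rep_iso r p))
    have hT'bad : ∀ q ∈ T', ∀ n w, BallIso r (c n) w q.2.1 q.2.2 → ¬ Good A k R (c n) w := by
      intro q hq n w hw
      rw [hT'] at hq
      obtain ⟨p, hp, rfl⟩ := Finset.mem_image.mp hq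
      exact hroot p (Finset.mem_filter.mp hp).2 n w (iso_trans hw (rep_iso r p))
    have hT'dis : ∀ q ∈ T', ∀ q' ∈ T', BallIso r q.2.1 q.2.2 q'.2.1 q'.2.2 → q = q' := by
      intro q hq q' hq' h
      rw [hT'] at hq hq'
      obtain ⟨p, _, rfl⟩ := Finset.mem_image.mp hq
      obtain ⟨p', _, rfl⟩ := Finset.mem_image.mp hq'
      exact rep_eq r p p' h
    -- frequencies
    have hlimsum : Tendsto (fun n => ∑ q ∈ T',
        (((S n).filter (fun w => BallIso r (c n) w q.2.1 q.2.2)).card : ℝ) / ((S n).card : ℝ))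
        atTop (𝓝 (∑ q ∈ T', (P (Ap q)).toReal)) := by
      refine tendsto_finsetSum _ ?_
      intro q _
      rw [hAp]
      exact hlim r q.1 q.2.1 q.2.2
    have hsumle : ∑ q ∈ T', (P (Ap q)).toReal ≤ ε := by
      refine le_of_tendsto hlimsum ?_
      filter_upwards [hbad] with n hn
      have hpos : (0 : ℝ) < ((S n).card : ℝ) := by
        exact_mod_cast Finset.card_pos.mpr (hS n)
      rw [← Finset.sum_div, div_le_iff₀ hpos]
      refine le_trans ?_ hn
      have h1 : (∑ q ∈ T', ((S n).filter (fun w => BallIso r (c n) w q.2.1 q.2.2)).card) =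
          (T'.biUnion (fun q => (S n).filter (fun w => BallIso r (c n) w q.2.1 q.2.2))).card := by
        rw [Finset.card_biUnion]
        intro q hq q' hq' hne
        refine Finset.disjoint_left.mpr ?_
        intro w hw hw'
        exact hne (hT'dis q hq q' hq'
          (iso_trans (iso_symm (Finset.mem_filter.mp hw).2) (Finset.mem_filter.mp hw').2))
      have h2 : (T'.biUnion (fun q => (S n).filter (fun w => BallIso r (c n) w q.2.1 q.2.2))).card ≤
          ((S n).filter (fun w => ¬ Good A k R (c n) w)).card := by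
        refine Finset.card_le_card ?_
        intro w hw
        obtain ⟨q, hq, hw⟩ := Finset.mem_biUnion.mp hw
        obtain ⟨hw1, hw2⟩ := Finset.mem_filter.mp hw
        exact Finset.mem_filter.mpr ⟨hw1, hT'bad q hq n w hw2⟩
      rw [← h1] at h2
      exact_mod_cast h2
    calc P (⋃ p ∈ (T : Set Pat) ∩ B, Ap p) ≤ P (⋃ p ∈ T', Ap p) := measure_mono hsub
      _ ≤ ∑ q ∈ T', P (Ap q) := measure_biUnion_finset_le _ _
      _ = ENNReal.ofReal (∑ q ∈ T', (P (Ap q)).toReal) := by
          rw [ENNReal.ofReal_sum_of_nonneg (fun _ _ => ENNReal.toReal_nonneg)]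
          refine Finset.sum_congr rfl ?_
          intro q _
          rw [ENNReal.ofReal_toReal (measure_ne_top P _)]
      _ ≤ ENNReal.ofReal ε := ENNReal.ofReal_le_ofReal hsumle
  have hdir : Directed (· ⊆ ·) (fun T : Finset Pat => ⋃ p ∈ (T : Set Pat) ∩ B, Ap p) := by
    intro T T'
    refine ⟨T ∪ T', ?_, ?_⟩
    · refine Set.biUnion_subset_biUnion_left ?_
      intro p hp
      exact ⟨by simp [Finset.mem_coe.mp hp.1], hp.2⟩
    · refine Set.biUnion_subset_biUnion_left ?_
      intro p hp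
      exact ⟨by simp [Finset.mem_coe.mp hp.1], hp.2⟩
  have hmain : P {ω | ¬ Good A k R (G ω) 0} ≤ ENNReal.ofReal ε := by
    refine le_trans (measure_mono hcov) ?_
    rw [hdir.measure_iUnion]
    exact iSup_le hfin
  exact ENNReal.toReal_le_of_le_ofReal hε hmain

end

end SPR
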